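import Mathlib

/-!
Confluence of combinatory logic with the semi-equational conditional `C z x y → x` if `x ↔* y`.
-/

namespace Pool.Agent.Results.MP_18c441_lc.Confluence

/-- Applicative terms over a set `V` of variables and the constants `S, K, I, T, F, C`. -/
inductive Tm (V : Type) : Type
  | var (v : V)
  | S
  | K
  | I
  | T
  | F
  | C
  | app (s t : Tm V)

open Tm

/-- Contraction, inside any context, of an instance of one of the five unconditional rules, or of
an instance `C z x y → x` whose arguments `x`, `y` are related by `conv`. -/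
inductive StepOf {V : Type} (conv : Tm V → Tm V → Prop) : Tm V → Tm V → Prop
  | ruleI (x : Tm V) : StepOf conv (app I x) x
  | ruleK (x y : Tm V) : StepOf conv (app (app K x) y) x
  | ruleS (x y z : Tm V) :
      StepOf conv (app (app (app S x) y) z) (app (app x z) (app y z))
  | ruleCT (x y : Tm V) : StepOf conv (app (app (app C T) x) y) x
  | ruleCF (x y : Tm V) : StepOf conv (app (app (app C F) x) y) y
  | ruleC (z x y : Tm V) (h : conv x y) : StepOf conv (app (app (app C z) x) y) x
  | left (s s' t : Tm V) (h : StepOf conv s s') : StepOf conv (app s t) (app s' t)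
  | right (s t t' : Tm V) (h : StepOf conv t t') : StepOf conv (app s t) (app s t')

/-- The relations `→_n`: `→_0` is empty, and `→_{n+1}` uses convertibility for `→_n`
(the reflexive, symmetric and transitive closure) in the condition of the sixth rule. -/
def level {V : Type} : ℕ → Tm V → Tm V → Prop
  | 0 => fun _ _ => False
  | n + 1 => StepOf (Relation.EqvGen (level n))

/-- The rewrite relation of the system: the union of all `→_n`. -/
def Step {V : Type} (s t : Tm V) : Prop := ∃ n, level n s t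

section aux

open Relation

variable {V : Type}

theorem StepOf.mono {c d : Tm V → Tm V → Prop} (hcd : ∀ x y, c x y → d x y) {s t : Tm V}
    (h : StepOf c s t) : StepOf d s t := by
  induction h with
  | ruleI x => exact .ruleI x
  | ruleK x y => exact .ruleK x y
  | ruleS x y z => exact .ruleS x y z
  | ruleCT x y => exact .ruleCT x y
  | ruleCF x y => exact .ruleCF x y
  | ruleC z x y h => exact .ruleC z x y (hcd _ _ h)
  | left s s' t _ ih => exact .left _ _ _ ih
  | right s t t' _ ih => exact .right _ _ _ ih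

/-- primitive steps -/
abbrev P1 : Tm V → Tm V → Prop := StepOf Eq

/-- convertibility -/
abbrev E : Tm V → Tm V → Prop := EqvGen P1

/-- steps of the system -/
abbrev R : Tm V → Tm V → Prop := StepOf E

theorem E.appL {s s' : Tm V} (t : Tm V) (h1 : E s s') : E (app s t) (app s' t) := by
  induction h1 with
  | rel x y h => exact .rel _ _ (.left _ _ _ h)
  | refl x => exact .refl _
  | symm x y _ ih => exact .symm _ _ ih
  | trans x y z _ _ ih1 ih2 => exact .trans _ _ _ ih1 ih2

theorem E.appR (s : Tm V) {t t' : Tm V} (h2 : E t t') : E (app s t) (app s t') := by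
  induction h2 with
  | rel x y h => exact .rel _ _ (.right _ _ _ h)
  | refl x => exact .refl _
  | symm x y _ ih => exact .symm _ _ ih
  | trans x y z _ _ ih1 ih2 => exact .trans _ _ _ ih1 ih2

theorem E.app' {s s' t t' : Tm V} (h1 : E s s') (h2 : E t t') : E (app s t) (app s' t') :=
  .trans _ _ _ (E.appL t h1) (E.appR s' h2)

theorem E.cond {z x y : Tm V} (h : E x y) : E (app (app (app C z) x) y) x :=
  .trans _ _ _ (E.app' (.refl _) (.symm _ _ h)) (.rel _ _ (.ruleC z x x rfl))

theorem R.toE {s t : Tm V} (h : R s t) : E s t := by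
  induction h with
  | ruleI x => exact .rel _ _ (.ruleI x)
  | ruleK x y => exact .rel _ _ (.ruleK x y)
  | ruleS x y z => exact .rel _ _ (.ruleS x y z)
  | ruleCT x y => exact .rel _ _ (.ruleCT x y)
  | ruleCF x y => exact .rel _ _ (.ruleCF x y)
  | ruleC z x y h => exact E.cond h
  | left s s' t _ ih => exact E.app' ih (.refl _)
  | right s t t' _ ih => exact E.app' (.refl _) ih

theorem P1.toR {s t : Tm V} (h : P1 s t) : R s t :=
  StepOf.mono (fun x y hxy => by subst hxy; exact .refl _) h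

theorem eqvGen_le {r : Tm V → Tm V → Prop} (h : ∀ x y, r x y → E x y) {s t : Tm V}
    (hst : EqvGen r s t) : E s t := by
  induction hst with
  | rel x y hxy => exact h _ _ hxy
  | refl x => exact .refl _
  | symm x y _ ih => exact .symm _ _ ih
  | trans x y z _ _ ih1 ih2 => exact .trans _ _ _ ih1 ih2

theorem eqvGen_mono' {r r' : Tm V → Tm V → Prop} (h : ∀ x y, r x y → r' x y) {s t : Tm V}
    (hst : EqvGen r s t) : EqvGen r' s t := by
  induction hst with
  | rel x y hxy => exact .rel _ _ (h _ _ hxy)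
  | refl x => exact .refl _
  | symm x y _ ih => exact .symm _ _ ih
  | trans x y z _ _ ih1 ih2 => exact .trans _ _ _ ih1 ih2

theorem level_toR (n : ℕ) : ∀ s t : Tm V, level n s t → R s t := by
  induction n with
  | zero => intro s t h; exact h.elim
  | succ n ih =>
    intro s t h
    exact StepOf.mono (fun _ _ hxy => eqvGen_le (fun a b hab => R.toE (ih a b hab)) hxy) h

theorem P1.toLevel {s t : Tm V} (h : P1 s t) : level 1 s t :=
  StepOf.mono (fun x y hxy => by subst hxy; exact .refl _) h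

theorem R.toLevel {s t : Tm V} (h : R s t) : level 2 s t :=
  StepOf.mono (fun _ _ hxy => eqvGen_mono' (fun _ _ hab => P1.toLevel hab) hxy) h

theorem step_iff {s t : Tm V} : Step s t ↔ R s t :=
  ⟨fun ⟨n, h⟩ => level_toR n s t h, fun h => ⟨2, R.toLevel h⟩⟩

/-! ### `T` and `F` are not convertible -/

/-- stack machine evaluation -/
inductive Ev : ℕ → Tm V → List (Tm V) → Bool → Prop
  | T (n : ℕ) : Ev n T [] true
  | F (n : ℕ) : Ev n F [] false
  | app (n : ℕ) (s t : Tm V) (l : List (Tm V)) (b : Bool) (h : Ev n s (t :: l) b) :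
      Ev (n + 1) (app s t) l b
  | I (n : ℕ) (x : Tm V) (l : List (Tm V)) (b : Bool) (h : Ev n x l b) :
      Ev (n + 1) I (x :: l) b
  | K (n : ℕ) (x y : Tm V) (l : List (Tm V)) (b : Bool) (h : Ev n x l b) :
      Ev (n + 1) K (x :: y :: l) b
  | S (n : ℕ) (x y z : Tm V) (l : List (Tm V)) (b : Bool)
      (h : Ev n x (z :: app y z :: l) b) : Ev (n + 1) S (x :: y :: z :: l) b
  | CT (n : ℕ) (z x y : Tm V) (l : List (Tm V)) (b : Bool) (hz : Ev n z [] true)
      (h : Ev n x l b) : Ev (n + 1) C (z :: x :: y :: l) b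
  | CF (n : ℕ) (z x y : Tm V) (l : List (Tm V)) (b : Bool) (hz : Ev n z [] false)
      (h : Ev n y l b) : Ev (n + 1) C (z :: x :: y :: l) b
  | CB (n : ℕ) (z x y : Tm V) (l : List (Tm V)) (b : Bool) (hx : Ev n x l b)
      (hy : Ev n y l b) : Ev (n + 1) C (z :: x :: y :: l) b

theorem Ev.succ {n : ℕ} {s : Tm V} {l : List (Tm V)} {b : Bool} (h : Ev n s l b) :
    Ev (n + 1) s l b := by
  induction h with
  | T n => exact .T _
  | F n => exact .F _
  | app n s t l b _ ih => exact .app _ _ _ _ _ ih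
  | I n x l b _ ih => exact .I _ _ _ _ ih
  | K n x y l b _ ih => exact .K _ _ _ _ _ ih
  | S n x y z l b _ ih => exact .S _ _ _ _ _ _ ih
  | CT n z x y l b _ _ ih1 ih2 => exact .CT _ _ _ _ _ _ ih1 ih2
  | CF n z x y l b _ _ ih1 ih2 => exact .CF _ _ _ _ _ _ ih1 ih2
  | CB n z x y l b _ _ ih1 ih2 => exact .CB _ _ _ _ _ _ ih1 ih2

theorem Ev.mono {n m : ℕ} (hnm : n ≤ m) {s : Tm V} {l : List (Tm V)} {b : Bool}
    (h : Ev n s l b) : Ev m s l b := by
  induction hnm with
  | refl => exact h
  | step _ ih => exact ih.succ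

/-- evaluation -/
def Evl (s : Tm V) (l : List (Tm V)) (b : Bool) : Prop := ∃ n, Ev n s l b

theorem Evl.app {s t : Tm V} {l : List (Tm V)} {b : Bool} (h : Evl s (t :: l) b) :
    Evl (app s t) l b := by
  obtain ⟨n, h⟩ := h; exact ⟨n + 1, .app _ _ _ _ _ h⟩

theorem Evl.I {x : Tm V} {l : List (Tm V)} {b : Bool} (h : Evl x l b) :
    Evl I (x :: l) b := by
  obtain ⟨n, h⟩ := h; exact ⟨n + 1, .I _ _ _ _ h⟩

theorem Evl.K {x : Tm V} (y : Tm V) {l : List (Tm V)} {b : Bool} (h : Evl x l b) :
    Evl K (x :: y :: l) b := by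
  obtain ⟨n, h⟩ := h; exact ⟨n + 1, .K _ _ _ _ _ h⟩

theorem Evl.S {x y z : Tm V} {l : List (Tm V)} {b : Bool}
    (h : Evl x (z :: Tm.app y z :: l) b) : Evl S (x :: y :: z :: l) b := by
  obtain ⟨n, h⟩ := h; exact ⟨n + 1, .S _ _ _ _ _ _ h⟩

theorem Evl.CT {z x : Tm V} (y : Tm V) {l : List (Tm V)} {b : Bool} (hz : Evl z [] true)
    (h : Evl x l b) : Evl C (z :: x :: y :: l) b := by
  obtain ⟨n, hz⟩ := hz
  obtain ⟨m, h⟩ := h
  exact ⟨max n m + 1, .CT _ _ _ _ _ _ (hz.mono (le_max_left _ _)) (h.mono (le_max_right _ _))⟩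

theorem Evl.CF {z : Tm V} (x : Tm V) {y : Tm V} {l : List (Tm V)} {b : Bool}
    (hz : Evl z [] false)
    (h : Evl y l b) : Evl C (z :: x :: y :: l) b := by
  obtain ⟨n, hz⟩ := hz
  obtain ⟨m, h⟩ := h
  exact ⟨max n m + 1, .CF _ _ _ _ _ _ (hz.mono (le_max_left _ _)) (h.mono (le_max_right _ _))⟩

theorem Evl.CB (z : Tm V) {x y : Tm V} {l : List (Tm V)} {b : Bool} (hx : Evl x l b)
    (h : Evl y l b) : Evl C (z :: x :: y :: l) b := by
  obtain ⟨n, hx⟩ := hx
  obtain ⟨m, h⟩ := h
  exact ⟨max n m + 1, .CB _ _ _ _ _ _ (hx.mono (le_max_left _ _)) (h.mono (le_max_right _ _))⟩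

theorem Evl.T_true : Evl (T : Tm V) [] true := ⟨0, .T 0⟩
theorem Evl.F_false : Evl (F : Tm V) [] false := ⟨0, .F 0⟩

theorem not_T_false : ¬ Evl (T : Tm V) [] false := by
  rintro ⟨n, h⟩; cases h

theorem not_F_true : ¬ Evl (F : Tm V) [] true := by
  rintro ⟨n, h⟩; cases h

theorem Evl.app_inv {s t : Tm V} {l : List (Tm V)} {b : Bool} (h : Evl (Tm.app s t) l b) :
    Evl s (t :: l) b := by
  obtain ⟨n, h⟩ := h
  cases h with
  | app n s t l b h => exact ⟨_, h⟩

theorem Evl.I_inv {x : Tm V} {l : List (Tm V)} {b : Bool} (h : Evl Tm.I (x :: l) b) :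
    Evl x l b := by
  obtain ⟨n, h⟩ := h
  cases h with
  | I n x l b h => exact ⟨_, h⟩

theorem Evl.K_inv {x y : Tm V} {l : List (Tm V)} {b : Bool}
    (h : Evl Tm.K (x :: y :: l) b) : Evl x l b := by
  obtain ⟨n, h⟩ := h
  cases h with
  | K n x y l b h => exact ⟨_, h⟩

theorem Evl.S_inv {x y z : Tm V} {l : List (Tm V)} {b : Bool}
    (h : Evl Tm.S (x :: y :: z :: l) b) : Evl x (z :: Tm.app y z :: l) b := by
  obtain ⟨n, h⟩ := h
  cases h with
  | S n x y z l b h => exact ⟨_, h⟩

theorem Evl.C_inv {z x y : Tm V} {l : List (Tm V)} {b : Bool}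
    (h : Evl Tm.C (z :: x :: y :: l) b) :
    (Evl z [] true ∧ Evl x l b) ∨ (Evl z [] false ∧ Evl y l b) ∨ (Evl x l b ∧ Evl y l b) := by
  obtain ⟨n, h⟩ := h
  cases h with
  | CT n z x y l b h1 h2 => exact Or.inl ⟨⟨_, h1⟩, ⟨_, h2⟩⟩
  | CF n z x y l b h1 h2 => exact Or.inr (Or.inl ⟨⟨_, h1⟩, ⟨_, h2⟩⟩)
  | CB n z x y l b h1 h2 => exact Or.inr (Or.inr ⟨⟨_, h1⟩, ⟨_, h2⟩⟩)

/-- parallel contraction -/
inductive Par : Tm V → Tm V → Prop
  | refl (s : Tm V) : Par s s
  | app (s s' t t' : Tm V) (h1 : Par s s') (h2 : Par t t') : Par (app s t) (app s' t')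
  | I (x x' : Tm V) (h : Par x x') : Par (app I x) x'
  | K (x x' y : Tm V) (h : Par x x') : Par (app (app K x) y) x'
  | S (x x' y y' z z' : Tm V) (h1 : Par x x') (h2 : Par y y') (h3 : Par z z') :
      Par (app (app (app S x) y) z) (app (app x' z') (app y' z'))
  | CT (x x' y : Tm V) (h : Par x x') : Par (app (app (app C T) x) y) x'
  | CF (x y y' : Tm V) (h : Par y y') : Par (app (app (app C F) x) y) y'
  | G (w a b c : Tm V) (h1 : Par a c) (h2 : Par b c) : Par (app (app (app C w) a) b) c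

theorem P1.toPar {s t : Tm V} (h : P1 s t) : Par s t := by
  induction h with
  | ruleI x => exact .I _ _ (.refl _)
  | ruleK x y => exact .K _ _ _ (.refl _)
  | ruleS x y z => exact .S _ _ _ _ _ _ (.refl _) (.refl _) (.refl _)
  | ruleCT x y => exact .CT _ _ _ (.refl _)
  | ruleCF x y => exact .CF _ _ _ (.refl _)
  | ruleC z x y h => subst h; exact .G _ _ _ _ (.refl _) (.refl _)
  | left s s' t _ ih => exact .app _ _ _ _ ih (.refl _)
  | right s t t' _ ih => exact .app _ _ _ _ (.refl _) ih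

theorem Par.forward {n : ℕ} {s : Tm V} {l : List (Tm V)} {b : Bool} (h : Ev n s l b) :
    ∀ s' l', Par s s' → List.Forall₂ Par l l' → Evl s' l' b := by
  induction h with
  | T n =>
    intro s' l' hs hl
    cases hs; cases hl; exact Evl.T_true
  | F n =>
    intro s' l' hs hl
    cases hs; cases hl; exact Evl.F_false
  | app n s t l b _ ih =>
    intro s' l' hs hl
    cases hs with
    | refl => exact Evl.app (ih _ _ (.refl _) (.cons (.refl _) hl))
    | app _ p _ q h1 h2 => exact Evl.app (ih _ _ h1 (.cons h2 hl))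
    | I _ _ h => exact Evl.I_inv (ih _ _ (.refl _) (.cons h hl))
    | K x _ _ h =>
      exact Evl.K_inv (Evl.app_inv (ih _ _ (.app _ _ _ _ (.refl _) h) (.cons (.refl _) hl)))
    | S x x' y y' _ z' h1 h2 h3 =>
      exact Evl.app (Evl.app (Evl.S_inv (Evl.app_inv (Evl.app_inv
        (ih _ _ (.app _ _ _ _ (.app _ _ _ _ (.refl _) h1) h2) (.cons h3 hl))))))
    | CT x _ _ h =>
      have := Evl.C_inv (Evl.app_inv (Evl.app_inv
        (ih _ _ (.app _ _ _ _ (.refl _) h) (.cons (.refl _) hl))))
      rcases this with ⟨_, h⟩ | ⟨h, _⟩ | ⟨h, _⟩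
      · exact h
      · exact (not_T_false h).elim
      · exact h
    | CF x _ _ h =>
      have := Evl.C_inv (Evl.app_inv (Evl.app_inv
        (ih _ _ (.refl _) (.cons h hl))))
      rcases this with ⟨h, _⟩ | ⟨_, h⟩ | ⟨_, h⟩
      · exact (not_F_true h).elim
      · exact h
      · exact h
    | G w a _ c h1 h2 =>
      have := Evl.C_inv (Evl.app_inv (Evl.app_inv
        (ih _ _ (.app _ _ _ _ (.refl _) h1) (.cons h2 hl))))
      rcases this with ⟨_, h⟩ | ⟨_, h⟩ | ⟨_, h⟩
      · exact h
      · exact h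
      · exact h
  | I n x l b _ ih =>
    intro s' l' hs hl
    cases hs
    cases hl with
    | cons h1 h2 => exact Evl.I (ih _ _ h1 h2)
  | K n x y l b _ ih =>
    intro s' l' hs hl
    cases hs
    cases hl with
    | cons h1 h2 =>
      cases h2 with
      | cons h2 h3 => exact Evl.K _ (ih _ _ h1 h3)
  | S n x y z l b _ ih =>
    intro s' l' hs hl
    cases hs
    cases hl with
    | cons h1 h2 =>
      cases h2 with
      | cons h2 h3 =>
        cases h3 with
        | cons h3 h4 => exact Evl.S (ih _ _ h1 (.cons h3 (.cons (.app _ _ _ _ h2 h3) h4)))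
  | CT n z x y l b _ _ ih1 ih2 =>
    intro s' l' hs hl
    cases hs
    cases hl with
    | cons h1 h2 =>
      cases h2 with
      | cons h2 h3 =>
        cases h3 with
        | cons h3 h4 => exact Evl.CT _ (ih1 _ _ h1 .nil) (ih2 _ _ h2 h4)
  | CF n z x y l b _ _ ih1 ih2 =>
    intro s' l' hs hl
    cases hs
    cases hl with
    | cons h1 h2 =>
      cases h2 with
      | cons h2 h3 =>
        cases h3 with
        | cons h3 h4 => exact Evl.CF _ (ih1 _ _ h1 .nil) (ih2 _ _ h3 h4)
  | CB n z x y l b _ _ ih1 ih2 =>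
    intro s' l' hs hl
    cases hs
    cases hl with
    | cons h1 h2 =>
      cases h2 with
      | cons h2 h3 =>
        cases h3 with
        | cons h3 h4 => exact Evl.CB _ (ih1 _ _ h2 h4) (ih2 _ _ h3 h4)

theorem forall2_refl (l : List (Tm V)) : List.Forall₂ Par l l := by
  induction l with
  | nil => exact .nil
  | cons a l ih => exact .cons (.refl _) ih

theorem Par.backward (n : ℕ) : ∀ (s s' : Tm V), Par s s' → ∀ (l l' : List (Tm V)) (b : Bool),
    List.Forall₂ Par l l' → Ev n s' l' b → Evl s l b := by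
  induction n using Nat.strong_induction_on with
  | _ n IH =>
  intro s s' hs
  induction hs with
  | refl s =>
    intro l l' b hl he
    cases he with
    | T n => cases hl; exact Evl.T_true
    | F n => cases hl; exact Evl.F_false
    | app n s t _ _ h =>
      exact Evl.app (IH n (by omega) _ _ (.refl _) _ _ _ (.cons (.refl _) hl) h)
    | I n x l' _ h =>
      cases hl with
      | cons h1 h2 => exact Evl.I (IH n (by omega) _ _ h1 _ _ _ h2 h)
    | K n x y l' _ h =>
      cases hl with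
      | cons h1 h2 =>
        cases h2 with
        | cons h2 h3 => exact Evl.K _ (IH n (by omega) _ _ h1 _ _ _ h3 h)
    | S n x y z l' _ h =>
      cases hl with
      | cons h1 h2 =>
        cases h2 with
        | cons h2 h3 =>
          cases h3 with
          | cons h3 h4 =>
            exact Evl.S (IH n (by omega) _ _ h1 _ _ _
              (.cons h3 (.cons (.app _ _ _ _ h2 h3) h4)) h)
    | CT n z x y l' _ hz h =>
      cases hl with
      | cons h1 h2 =>
        cases h2 with
        | cons h2 h3 =>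
          cases h3 with
          | cons h3 h4 =>
            exact Evl.CT _ (IH n (by omega) _ _ h1 _ _ _ .nil hz)
              (IH n (by omega) _ _ h2 _ _ _ h4 h)
    | CF n z x y l' _ hz h =>
      cases hl with
      | cons h1 h2 =>
        cases h2 with
        | cons h2 h3 =>
          cases h3 with
          | cons h3 h4 =>
            exact Evl.CF _ (IH n (by omega) _ _ h1 _ _ _ .nil hz)
              (IH n (by omega) _ _ h3 _ _ _ h4 h)
    | CB n z x y l' _ hx hy =>
      cases hl with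
      | cons h1 h2 =>
        cases h2 with
        | cons h2 h3 =>
          cases h3 with
          | cons h3 h4 =>
            exact Evl.CB _ (IH n (by omega) _ _ h2 _ _ _ h4 hx)
              (IH n (by omega) _ _ h3 _ _ _ h4 hy)
  | app s s' t t' h1 h2 _ _ =>
    intro l l' b hl he
    cases he with
    | app n _ _ _ _ h => exact Evl.app (IH n (by omega) _ _ h1 _ _ _ (.cons h2 hl) h)
  | I x x' _ ih =>
    intro l l' b hl he
    exact Evl.app (Evl.I (ih _ _ _ hl he))
  | K x x' y _ ih =>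
    intro l l' b hl he
    exact Evl.app (Evl.app (Evl.K _ (ih _ _ _ hl he)))
  | S x x' y y' z z' h1 h2 h3 _ _ _ =>
    intro l l' b hl he
    cases he with
    | app n _ _ _ _ h =>
      cases h with
      | app n _ _ _ _ h =>
        exact Evl.app (Evl.app (Evl.app (Evl.S (IH n (by omega) _ _ h1 _ _ _
          (.cons h3 (.cons (.app _ _ _ _ h2 h3) hl)) h))))
  | CT x x' y _ ih =>
    intro l l' b hl he
    exact Evl.app (Evl.app (Evl.app (Evl.CT _ Evl.T_true (ih _ _ _ hl he))))
  | CF x y y' _ ih =>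
    intro l l' b hl he
    exact Evl.app (Evl.app (Evl.app (Evl.CF _ Evl.F_false (ih _ _ _ hl he))))
  | G w a b' c _ _ ih1 ih2 =>
    intro l l' b hl he
    exact Evl.app (Evl.app (Evl.app (Evl.CB _ (ih1 _ _ _ hl he) (ih2 _ _ _ hl he))))

theorem E.ev {s t : Tm V} (h : E s t) : Evl s [] true ↔ Evl t [] true := by
  induction h with
  | rel x y h =>
    constructor
    · rintro ⟨n, hn⟩
      exact Par.forward hn _ _ (P1.toPar h) .nil
    · rintro ⟨n, hn⟩
      exact Par.backward n _ _ (P1.toPar h) _ _ _ .nil hn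
  | refl x => exact Iff.rfl
  | symm x y _ ih => exact ih.symm
  | trans x y z _ _ ih1 ih2 => exact ih1.trans ih2

theorem not_E_T_F : ¬ E (T : Tm V) F := fun h => not_F_true ((E.ev h).1 Evl.T_true)

/-! ### The auxiliary system -/

/-- steps of the auxiliary system -/
inductive U : Tm V → Tm V → Prop
  | I (x : Tm V) : U (app I x) x
  | K (x y : Tm V) : U (app (app K x) y) x
  | S (x y z : Tm V) : U (app (app (app S x) y) z) (app (app x z) (app y z))
  | CT (x y : Tm V) : U (app (app (app C T) x) y) x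
  | CF (x y : Tm V) : U (app (app (app C F) x) y) y
  | G1 (z x y : Tm V) (h : E x y) (hz : ¬ E z F) : U (app (app (app C z) x) y) x
  | G2 (z x y : Tm V) (hz : E z F) : U (app (app (app C z) x) y) y
  | left (s s' t : Tm V) (h : U s s') : U (app s t) (app s' t)
  | right (s t t' : Tm V) (h : U t t') : U (app s t) (app s t')

theorem P1.toU {s t : Tm V} (h : P1 s t) : U s t := by
  induction h with
  | ruleI x => exact .I x
  | ruleK x y => exact .K x y
  | ruleS x y z => exact .S x y z
  | ruleCT x y => exact .CT x y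
  | ruleCF x y => exact .CF x y
  | ruleC z x y h =>
    subst h
    by_cases hz : E z F
    · exact .G2 _ _ _ hz
    · exact .G1 _ _ _ (.refl _) hz
  | left s s' t _ ih => exact .left _ _ _ ih
  | right s t t' _ ih => exact .right _ _ _ ih

theorem U.toE {s t : Tm V} (h : U s t) : E s t := by
  induction h with
  | I x => exact .rel _ _ (.ruleI x)
  | K x y => exact .rel _ _ (.ruleK x y)
  | S x y z => exact .rel _ _ (.ruleS x y z)
  | CT x y => exact .rel _ _ (.ruleCT x y)
  | CF x y => exact .rel _ _ (.ruleCF x y)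
  | G1 z x y h _ => exact E.cond h
  | G2 z x y hz =>
    exact .trans _ _ _ (E.app' (E.app' (E.app' (.refl _) hz) (.refl _)) (.refl _))
      (.rel _ _ (.ruleCF x y))
  | left s s' t _ ih => exact E.app' ih (.refl _)
  | right s t t' _ ih => exact E.app' (.refl _) ih

theorem rtg_app {Q : Tm V → Tm V → Prop}
    (hl : ∀ s s' t, Q s s' → Q (app s t) (app s' t))
    (hr : ∀ s t t', Q t t' → Q (app s t) (app s t'))
    {s s' t t' : Tm V} (h1 : ReflTransGen Q s s') (h2 : ReflTransGen Q t t') :
    ReflTransGen Q (app s t) (app s' t') :=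
  (h1.lift (fun a => app a t) (fun a b h => hl a b t h)).trans
    (h2.lift (fun a => app s' a) (fun a b h => hr s' a b h))

theorem U.rapp {s s' t t' : Tm V} (h1 : ReflTransGen U s s') (h2 : ReflTransGen U t t') :
    ReflTransGen U (app s t) (app s' t') :=
  rtg_app (fun _ _ _ h => .left _ _ _ h) (fun _ _ _ h => .right _ _ _ h) h1 h2

theorem R.rapp {s s' t t' : Tm V} (h1 : ReflTransGen R s s') (h2 : ReflTransGen R t t') :
    ReflTransGen R (app s t) (app s' t') :=
  rtg_app (fun _ _ _ h => .left _ _ _ h) (fun _ _ _ h => .right _ _ _ h) h1 h2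

theorem rtg_toE {Q : Tm V → Tm V → Prop} (hQ : ∀ s t, Q s t → E s t) {s t : Tm V}
    (h : ReflTransGen Q s t) : E s t := by
  induction h with
  | refl => exact .refl _
  | tail _ h ih => exact .trans _ _ _ ih (hQ _ _ h)

/-- simulation relation -/
inductive Sim : Tm V → Tm V → Prop
  | refl (s : Tm V) : Sim s s
  | app (s s' t t' : Tm V) (h1 : Sim s s') (h2 : Sim t t') : Sim (app s t) (app s' t')
  | I (x x' : Tm V) (h : Sim x x') : Sim (app I x) x'
  | K (x x' y : Tm V) (h : Sim x x') : Sim (app (app K x) y) x'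
  | S (x x' y y' z z' : Tm V) (h1 : Sim x x') (h2 : Sim y y') (h3 : Sim z z') :
      Sim (app (app (app S x) y) z) (app (app x' z') (app y' z'))
  | CT (x x' y : Tm V) (h : Sim x x') : Sim (app (app (app C T) x) y) x'
  | CF (x y y' : Tm V) (h : Sim y y') : Sim (app (app (app C F) x) y) y'
  | G (w a b X a' b' : Tm V) (ha : ReflTransGen U X a') (hb : ReflTransGen U X b')
      (h1 : Sim a a') (h2 : Sim b b') : Sim (app (app (app C w) a) b) X

theorem P1.toSim {s t : Tm V} (h : P1 s t) : Sim s t := by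
  induction h with
  | ruleI x => exact .I _ _ (.refl _)
  | ruleK x y => exact .K _ _ _ (.refl _)
  | ruleS x y z => exact .S _ _ _ _ _ _ (.refl _) (.refl _) (.refl _)
  | ruleCT x y => exact .CT _ _ _ (.refl _)
  | ruleCF x y => exact .CF _ _ _ (.refl _)
  | ruleC z x y h => subst h; exact .G _ _ _ _ _ _ .refl .refl (.refl _) (.refl _)
  | left s s' t _ ih => exact .app _ _ _ _ ih (.refl _)
  | right s t t' _ ih => exact .app _ _ _ _ (.refl _) ih

theorem Sim.toE {s t : Tm V} (h : Sim s t) : E s t := by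
  induction h with
  | refl s => exact .refl _
  | app s s' t t' _ _ ih1 ih2 => exact E.app' ih1 ih2
  | I x x' _ ih => exact .trans _ _ _ (.rel _ _ (.ruleI x)) ih
  | K x x' y _ ih => exact .trans _ _ _ (.rel _ _ (.ruleK x y)) ih
  | S x x' y y' z z' _ _ _ ih1 ih2 ih3 =>
    exact .trans _ _ _ (.rel _ _ (.ruleS x y z)) (E.app' (E.app' ih1 ih3) (E.app' ih2 ih3))
  | CT x x' y _ ih => exact .trans _ _ _ (.rel _ _ (.ruleCT x y)) ih
  | CF x y y' _ ih => exact .trans _ _ _ (.rel _ _ (.ruleCF x y)) ih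
  | G w a b X a' b' ha hb _ _ ih1 ih2 =>
    have ea : E X a' := rtg_toE (fun _ _ h => U.toE h) ha
    have eb : E X b' := rtg_toE (fun _ _ h => U.toE h) hb
    have e1 : E a X := .trans _ _ _ ih1 (.symm _ _ ea)
    have e2 : E b X := .trans _ _ _ ih2 (.symm _ _ eb)
    exact .trans _ _ _ (E.cond (.trans _ _ _ e1 (.symm _ _ e2))) e1

theorem Sim.step {s t : Tm V} (h : Sim s t) :
    ∀ s', U s s' → ∃ t', ReflTransGen U t t' ∧ Sim s' t' := by
  induction h with
  | refl s => intro s' h; exact ⟨s', .single h, .refl _⟩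
  | app s s' t t' h1 h2 ih1 ih2 =>
    intro r hr
    cases hr with
    | I x =>
      cases h1
      exact ⟨_, .single (.I _), h2⟩
    | K x y =>
      cases h1 with
      | refl => exact ⟨_, .single (.K _ _), .refl _⟩
      | app _ _ _ x' h3 h4 =>
        cases h3
        exact ⟨_, .single (.K _ _), h4⟩
    | S x y z =>
      cases h1 with
      | refl => exact ⟨_, .single (.S _ _ _), .app _ _ _ _ (.app _ _ _ _ (.refl _) h2)
          (.app _ _ _ _ (.refl _) h2)⟩
      | app _ _ _ y' h3 h4 =>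
        cases h3 with
        | refl => exact ⟨_, .single (.S _ _ _), .app _ _ _ _ (.app _ _ _ _ (.refl _) h2)
            (.app _ _ _ _ h4 h2)⟩
        | app _ _ _ x' h5 h6 =>
          cases h5
          exact ⟨_, .single (.S _ _ _), .app _ _ _ _ (.app _ _ _ _ h6 h2)
            (.app _ _ _ _ h4 h2)⟩
    | CT x y =>
      cases h1 with
      | refl => exact ⟨_, .single (.CT _ _), .refl _⟩
      | app _ _ _ x' h3 h4 =>
        cases h3 with
        | refl => exact ⟨_, .single (.CT _ _), h4⟩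
        | app _ _ _ _ h5 h6 =>
          cases h5
          cases h6
          exact ⟨_, .single (.CT _ _), h4⟩
    | CF x y =>
      cases h1 with
      | refl => exact ⟨_, .single (.CF _ _), h2⟩
      | app _ _ _ x' h3 h4 =>
        cases h3 with
        | refl => exact ⟨_, .single (.CF _ _), h2⟩
        | app _ _ _ _ h5 h6 =>
          cases h5
          cases h6
          exact ⟨_, .single (.CF _ _), h2⟩
    | G1 z _ y h hz =>
      have key : ∃ z' x', s' = Tm.app (Tm.app Tm.C z') x' ∧ Sim z z' ∧ Sim r x' := by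
        cases h1 with
        | refl => exact ⟨_, _, rfl, .refl _, .refl _⟩
        | app _ _ _ x' h3 h4 =>
          cases h3 with
          | refl => exact ⟨_, _, rfl, .refl _, h4⟩
          | app _ _ _ z' h5 h6 =>
            cases h5
            exact ⟨_, _, rfl, h6, h4⟩
      obtain ⟨z', x', rfl, hz', hx'⟩ := key
      exact ⟨x', .single (.G1 _ _ _
        (.trans _ _ _ (.symm _ _ hx'.toE) (.trans _ _ _ h h2.toE))
        (fun hh => hz (.trans _ _ _ hz'.toE hh))), hx'⟩
    | G2 z x0 y hz =>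
      have key : ∃ z' x', s' = Tm.app (Tm.app Tm.C z') x' ∧ Sim z z' ∧ Sim x0 x' := by
        cases h1 with
        | refl => exact ⟨_, _, rfl, .refl _, .refl _⟩
        | app _ _ _ x' h3 h4 =>
          cases h3 with
          | refl => exact ⟨_, _, rfl, .refl _, h4⟩
          | app _ _ _ z' h5 h6 =>
            cases h5
            exact ⟨_, _, rfl, h6, h4⟩
      obtain ⟨z', x', rfl, hz', hx'⟩ := key
      exact ⟨t', .single (.G2 _ _ _ (.trans _ _ _ (.symm _ _ hz'.toE) hz)), h2⟩
    | left _ s1 _ h =>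
      obtain ⟨s1', hs1, hs2⟩ := ih1 _ h
      exact ⟨_, U.rapp hs1 .refl, .app _ _ _ _ hs2 h2⟩
    | right _ _ t1 h =>
      obtain ⟨t1', ht1, ht2⟩ := ih2 _ h
      exact ⟨_, U.rapp .refl ht1, .app _ _ _ _ h1 ht2⟩
  | I x x' h ih =>
    intro r hr
    cases hr with
    | I x => exact ⟨_, .refl, h⟩
    | left _ _ _ h => cases h
    | right _ _ x1 h1 =>
      obtain ⟨x1', h3, h4⟩ := ih _ h1
      exact ⟨_, h3, .I _ _ h4⟩
  | K x x' y h ih =>
    intro r hr
    cases hr with
    | K x y => exact ⟨_, .refl, h⟩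
    | left _ _ _ h =>
      cases h with
      | left _ _ _ h => cases h
      | right _ _ x1 h1 =>
        obtain ⟨x1', h3, h4⟩ := ih _ h1
        exact ⟨_, h3, .K _ _ _ h4⟩
    | right _ _ y1 h1 => exact ⟨_, .refl, .K _ _ _ h⟩
  | S x x' y y' z z' h1 h2 h3 ih1 ih2 ih3 =>
    intro r hr
    cases hr with
    | S x y z => exact ⟨_, .refl, .app _ _ _ _ (.app _ _ _ _ h1 h3) (.app _ _ _ _ h2 h3)⟩
    | left _ _ _ h =>
      cases h with
      | left _ _ _ h =>
        cases h with
        | left _ _ _ h => cases h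
        | right _ _ x1 h =>
          obtain ⟨x1', h5, h6⟩ := ih1 _ h
          exact ⟨_, U.rapp (U.rapp h5 .refl) .refl, .S _ _ _ _ _ _ h6 h2 h3⟩
      | right _ _ y1 h =>
        obtain ⟨y1', h5, h6⟩ := ih2 _ h
        exact ⟨_, U.rapp .refl (U.rapp h5 .refl), .S _ _ _ _ _ _ h1 h6 h3⟩
    | right _ _ z1 h =>
      obtain ⟨z1', h5, h6⟩ := ih3 _ h
      exact ⟨_, U.rapp (U.rapp .refl h5) (U.rapp .refl h5), .S _ _ _ _ _ _ h1 h2 h6⟩
  | CT x x' y h ih =>
    intro r hr
    cases hr with
    | CT x y => exact ⟨_, .refl, h⟩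
    | G1 z x y _ _ => exact ⟨_, .refl, h⟩
    | G2 z x y hz => exact (not_E_T_F hz).elim
    | left _ _ _ h' =>
      cases h' with
      | left _ _ _ h' =>
        cases h' with
        | left _ _ _ h' => cases h'
        | right _ _ _ h' => cases h'
      | right _ _ x1 h' =>
        obtain ⟨x1', h5, h6⟩ := ih _ h'
        exact ⟨_, h5, .CT _ _ _ h6⟩
    | right _ _ y1 h' => exact ⟨_, .refl, .CT _ _ _ h⟩
  | CF x y y' h ih =>
    intro r hr
    cases hr with
    | CF x y => exact ⟨_, .refl, h⟩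
    | G1 z x y _ hz => exact (hz (.refl _)).elim
    | G2 z x y hz => exact ⟨_, .refl, h⟩
    | left _ _ _ h' =>
      cases h' with
      | left _ _ _ h' =>
        cases h' with
        | left _ _ _ h' => cases h'
        | right _ _ _ h' => cases h'
      | right _ _ x1 h' => exact ⟨_, .refl, .CF _ _ _ h⟩
    | right _ _ y1 h' =>
      obtain ⟨x1', h5, h6⟩ := ih _ h'
      exact ⟨_, h5, .CF _ _ _ h6⟩
  | G w a b X a' b' ha hb h1 h2 ih1 ih2 =>
    intro r hr
    cases hr with
    | CT x y => exact ⟨_, ha, h1⟩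
    | CF x y => exact ⟨_, hb, h2⟩
    | G1 z x y _ hz => exact ⟨_, ha, h1⟩
    | G2 z x y hz => exact ⟨_, hb, h2⟩
    | left _ _ _ h' =>
      cases h' with
      | left _ _ _ h' =>
        cases h' with
        | left _ _ _ h' => cases h'
        | right _ _ w1 h' => exact ⟨X, .refl, .G _ _ _ _ _ _ ha hb h1 h2⟩
      | right _ _ x1 h' =>
        obtain ⟨x1', h5, h6⟩ := ih1 _ h'
        exact ⟨X, .refl, .G _ _ _ _ _ _ (ha.trans h5) hb h6 h2⟩
    | right _ _ y1 h' =>
      obtain ⟨x1', h5, h6⟩ := ih2 _ h'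
      exact ⟨X, .refl, .G _ _ _ _ _ _ ha (hb.trans h5) h1 h6⟩

theorem Sim.steps {s t s' : Tm V} (h : Sim s t) (hs : ReflTransGen U s s') :
    ∃ t', ReflTransGen U t t' ∧ Sim s' t' := by
  induction hs with
  | refl => exact ⟨t, .refl, h⟩
  | tail _ hu ih =>
    obtain ⟨t1, h1, h2⟩ := ih
    obtain ⟨t2, h3, h4⟩ := h2.step _ hu
    exact ⟨t2, h1.trans h3, h4⟩

theorem Sim.join {s t : Tm V} (h : Sim s t) :
    ∃ y, ReflTransGen R s y ∧ ReflTransGen U t y := by
  induction h with
  | refl s => exact ⟨s, .refl, .refl⟩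
  | app s s' t t' _ _ ih1 ih2 =>
    obtain ⟨y1, h1, h2⟩ := ih1
    obtain ⟨y2, h3, h4⟩ := ih2
    exact ⟨_, R.rapp h1 h3, U.rapp h2 h4⟩
  | I x x' _ ih =>
    obtain ⟨y, h1, h2⟩ := ih
    exact ⟨y, h1.head (.ruleI x), h2⟩
  | K x x' y _ ih =>
    obtain ⟨y, h1, h2⟩ := ih
    exact ⟨y, h1.head (.ruleK x _), h2⟩
  | S x x' y y' z z' _ _ _ ih1 ih2 ih3 =>
    obtain ⟨a, a1, a2⟩ := ih1
    obtain ⟨b, b1, b2⟩ := ih2
    obtain ⟨c, c1, c2⟩ := ih3
    exact ⟨_, (R.rapp (R.rapp a1 c1) (R.rapp b1 c1)).head (.ruleS x y z),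
      U.rapp (U.rapp a2 c2) (U.rapp b2 c2)⟩
  | CT x x' y _ ih =>
    obtain ⟨y, h1, h2⟩ := ih
    exact ⟨y, h1.head (.ruleCT x _), h2⟩
  | CF x y y' _ ih =>
    obtain ⟨v, h1, h2⟩ := ih
    exact ⟨v, h1.head (.ruleCF _ _), h2⟩
  | G w a b X a' b' ha hb h1 h2 ih1 ih2 =>
    obtain ⟨y, h3, h4⟩ := ih1
    have ea : E X a' := rtg_toE (fun _ _ h => U.toE h) ha
    have eb : E X b' := rtg_toE (fun _ _ h => U.toE h) hb
    have e1 : E a X := .trans _ _ _ h1.toE (.symm _ _ ea)
    have e2 : E b X := .trans _ _ _ h2.toE (.symm _ _ eb)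
    exact ⟨y, h3.head (.ruleC _ _ _ (.trans _ _ _ e1 (.symm _ _ e2))), ha.trans h4⟩

/-- `y` is good for `x` -/
def J (x y : Tm V) : Prop := ∃ w, ReflTransGen R x w ∧ ReflTransGen U y w

theorem J.fwd {x y y1 : Tm V} (h : J x y) (hy : P1 y y1) : J x y1 := by
  obtain ⟨w, h1, h2⟩ := h
  obtain ⟨w', h3, h4⟩ := (P1.toSim hy).steps h2
  obtain ⟨v, h5, h6⟩ := h4.join
  exact ⟨v, h1.trans h5, h3.trans h6⟩

theorem J.bwd {x y y1 : Tm V} (h : J x y) (hy : P1 y1 y) : J x y1 := by
  obtain ⟨w, h1, h2⟩ := h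
  exact ⟨w, h1, h2.head (P1.toU hy)⟩

theorem J.transport {y z : Tm V} (h : E y z) : ∀ x, (J x y ↔ J x z) := by
  induction h with
  | rel a b h => exact fun x => ⟨fun hx => hx.fwd h, fun hx => hx.bwd h⟩
  | refl a => exact fun x => Iff.rfl
  | symm a b _ ih => exact fun x => (ih x).symm
  | trans a b c _ _ ih1 ih2 => exact fun x => (ih1 x).trans (ih2 x)

theorem E.toJ {x y : Tm V} (h : E x y) : J x y :=
  (J.transport h x).1 ⟨x, .refl, .refl⟩

theorem U_F {w : Tm V} (h : ReflTransGen U F w) : w = F := by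
  induction h with
  | refl => rfl
  | tail _ h ih => subst ih; cases h

theorem toF {z : Tm V} (h : E z F) : ReflTransGen R z F := by
  obtain ⟨w, h1, h2⟩ := h.toJ
  rw [U_F h2] at h1
  exact h1

theorem U.toR {s t : Tm V} (h : U s t) : ReflTransGen R s t := by
  induction h with
  | I x => exact .single (.ruleI x)
  | K x y => exact .single (.ruleK x y)
  | S x y z => exact .single (.ruleS x y z)
  | CT x y => exact .single (.ruleCT x y)
  | CF x y => exact .single (.ruleCF x y)
  | G1 z x y h _ => exact .single (.ruleC _ _ _ h)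
  | G2 z x y hz =>
    exact (R.rapp (R.rapp (R.rapp .refl (toF hz)) .refl) .refl).tail (.ruleCF x y)
  | left s s' t _ ih => exact R.rapp ih .refl
  | right s t t' _ ih => exact R.rapp .refl ih

theorem U.rtoR {s t : Tm V} (h : ReflTransGen U s t) : ReflTransGen R s t := by
  induction h with
  | refl => exact .refl
  | tail _ h ih => exact ih.trans h.toR

theorem R.ofStep {s t : Tm V} (h : ReflTransGen Step s t) : ReflTransGen R s t := by
  induction h with
  | refl => exact .refl
  | tail _ h ih => exact ih.tail (step_iff.1 h)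

theorem R.toStep {s t : Tm V} (h : ReflTransGen R s t) : ReflTransGen Step s t := by
  induction h with
  | refl => exact .refl
  | tail _ h ih => exact ih.tail (step_iff.2 h)

theorem E.joinable {x y : Tm V} (h : E x y) :
    ∃ w, ReflTransGen R x w ∧ ReflTransGen R y w := by
  obtain ⟨w, h1, h2⟩ := h.toJ
  exact ⟨w, h1, U.rtoR h2⟩

end aux

/-- The rewrite relation of the system is confluent. -/
theorem result (V : Type) (t t₁ t₂ : Tm V)
    (h₁ : Relation.ReflTransGen Step t t₁) (h₂ : Relation.ReflTransGen Step t t₂) :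
    ∃ u : Tm V, Relation.ReflTransGen Step t₁ u ∧ Relation.ReflTransGen Step t₂ u := by
  have e1 : E t t₁ := rtg_toE (fun _ _ h => R.toE h) (R.ofStep h₁)
  have e2 : E t t₂ := rtg_toE (fun _ _ h => R.toE h) (R.ofStep h₂)
  obtain ⟨u, hu1, hu2⟩ := E.joinable (.trans _ _ _ (.symm _ _ e1) e2)
  exact ⟨u, R.toStep hu1, R.toStep hu2⟩

end Pool.Agent.Results.MP_18c441_lc.Confluence
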